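import Pool.Agent.helper12.KZ.Spec
import Pool.Agent.helper58.DC.FA

/-! Row kz:KPW (MP_baa4d7_al): powers of extensions -/

set_option autoImplicit false

namespace Pool.Agent.KZ

open Pool.Agent.helper58.DC Pool.Agent.DI Pool.Agent.TY

theorem KPW (hKTR : KTR_stmt) (hCO : CO_stmt) (hCL0 : CL0_stmt) (hCL1 : CL1_stmt) (hPR : PR_stmt)
    (hIS : IS_stmt) (hPT : PT_stmt) (hSK : SK_stmt) (hBT : BT_stmt) : KPW_stmt := by
  intro p hp M A _ _
  obtain ⟨Q, _, _, c₀, q₀, htr, hq₀⟩ := hCO A A (MonoidHom.id A) Function.injective_id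
  have hQ : 0 < Fintype.card Q := Fintype.card_pos_iff.2 ⟨q₀⟩
  refine ⟨Fintype.card Q, hQ, ?_⟩
  intro G E _ _ _ _ X hop χ hχ hst δ hδ r
  obtain ⟨S, hS, hS'⟩ := altSum_kext hCL0 hCL1 hPR hIS hPT hSK G E A A (QR Q r) X (cocR c₀ r) p M
    hop χ hχ hst
  have hfix : ∀ d, S.fix d ⊤ = altSum X p M χ d ⊤ := fun d => by rw [fix_top, hS]
  have hfin : Finite (KE X (cocR c₀ r)) :=
    (hSK G E A A (QR Q r) X (cocR c₀ r) M).2.2.1 inferInstance inferInstance
  have hcard : Fintype.card (QR Q r) = Fintype.card Q * r := by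
    have : Fintype.card (QR Q r) = Fintype.card (Q × Fin r) := Fintype.card_congr (Equiv.refl _)
    rw [this, Fintype.card_prod, Fintype.card_fin]
  have hBD := hBT G (QR Q r) p hp.out M χ hχ δ hδ
  rw [hcard] at hBD
  refine ⟨QR Q r → G, KE X (cocR c₀ r), inferInstance, inferInstance, inferInstance, hfin,
    kext X (cocR c₀ r), tens fun _ : QR Q r => χ, (hPT G (QR Q r) p M χ hχ).2.2 hop,
    (hPT G (QR Q r) p M χ hχ).1, (hSK G E A A (QR Q r) X (cocR c₀ r) M).2.1 χ hχ hst, hBD, ?_⟩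
  intro D n hn
  have h1 := hKTR A A Q S c₀ q₀ r D n hq₀ (fun d hd => by rw [hfix]; exact hn d hd)
  rw [fix_top, ← hS', hfix] at h1
  exact h1

end Pool.Agent.KZ
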