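import Pool.Agent.helper12.KZ.Spec
import Pool.Agent.helper34.DC.TR

/-! Row kz:KTR (MP_baa4d7_al): fixed elements of powers modulo `n` -/

set_option autoImplicit false

namespace Pool.Agent.KZ

open Pool.Agent.helper58.DC Pool.Agent.DI Pool.Agent.TY

theorem KTR_sum {Y : Type} [Fintype Y] (P : Y → Prop) [DecidablePred P] (s : Y → ℤ) :
    ∑ᶠ y : {y : Y // P y}, s y.1 = ∑ y ∈ Finset.univ.filter P, s y := by
  classical
  rw [finsum_eq_sum_of_fintype]
  exact (Finset.sum_subtype (Finset.univ.filter P) (by simp) s).symm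

theorem KTR_TP (Y T : Type) [Finite Y] [Fintype T] (s δ : Y → ℤ) (m : T → ℕ) (D n : ℤ) (hm : ∀ t, 0 < m t)
    (hD : ∀ d > D, n ∣ ∑ᶠ y : {y : Y // δ y = d}, s y.1) :
    n ∣ (∑ᶠ y : {y : T → Y // ∑ t, (m t : ℤ) * δ (y t) = (∑ t, (m t : ℤ)) * D}, ∏ t, s (y.1 t)) -
      (∑ᶠ y : {y : Y // δ y = D}, s y.1) ^ Fintype.card T := by
  classical
  have : Fintype Y := Fintype.ofFinite Y
  set F : ℤ → ℤ := fun d => ∑ y ∈ Finset.univ.filter (fun y => δ y = d), s y with hF
  have hF0 : ∀ d > D, n ∣ F d := by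
    intro d hd
    have h := hD d hd
    rw [KTR_sum] at h
    exact h
  rw [KTR_sum (fun y : T → Y => ∑ t, (m t : ℤ) * δ (y t) = (∑ t, (m t : ℤ)) * D)
    (fun y => ∏ t, s (y t)), KTR_sum (fun y => δ y = D) s]
  set A : Finset (T → Y) :=
    Finset.univ.filter (fun y : T → Y => ∑ t, (m t : ℤ) * δ (y t) = (∑ t, (m t : ℤ)) * D) with hA
  set E : Finset (T → ℤ) := A.image (fun y t => δ (y t)) with hE
  have h1 : ∑ y ∈ A, ∏ t, s (y t) = ∑ e ∈ E, ∏ t, F (e t) := by
    rw [← Finset.sum_fiberwise_of_maps_to (g := fun (y : T → Y) (t : T) => δ (y t)) (t := E)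
      (fun y hy => Finset.mem_image_of_mem _ hy)]
    refine Finset.sum_congr rfl fun e he => ?_
    rw [hF]
    show _ = ∏ t, ∑ y ∈ Finset.univ.filter (fun y => δ y = e t), s y
    rw [Finset.prod_univ_sum]
    refine Finset.sum_congr ?_ fun _ _ => rfl
    ext y
    rw [Finset.mem_filter, Fintype.mem_piFinset]
    constructor
    · rintro ⟨-, h⟩ t
      rw [Finset.mem_filter]
      exact ⟨Finset.mem_univ _, congrFun h t⟩
    · intro h
      have h' : (fun t => δ (y t)) = e := funext fun t => (Finset.mem_filter.1 (h t)).2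
      refine ⟨?_, h'⟩
      obtain ⟨y0, hy0, h0⟩ := Finset.mem_image.1 he
      rw [hA, Finset.mem_filter] at hy0 ⊢
      refine ⟨Finset.mem_univ _, ?_⟩
      rw [← hy0.2]
      refine Finset.sum_congr rfl fun t _ => ?_
      have h2 : δ (y t) = δ (y0 t) := by
        have h3 : δ (y t) = e t := congrFun h' t
        have h4 : δ (y0 t) = e t := congrFun h0 t
        rw [h3, h4]
      rw [h2]
  rw [h1]
  have hrest : ∀ e ∈ E, e ≠ (fun _ : T => D) → n ∣ ∏ t, F (e t) := by
    intro e he hne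
    obtain ⟨y0, hy0, h0⟩ := Finset.mem_image.1 he
    rw [hA, Finset.mem_filter] at hy0
    have hs : ∑ t, (m t : ℤ) * e t = (∑ t, (m t : ℤ)) * D := by
      rw [← hy0.2]
      exact Finset.sum_congr rfl fun t _ => by rw [← h0]
    by_cases hex : ∃ t, D < e t
    · obtain ⟨t, ht⟩ := hex
      exact (hF0 _ ht).trans (Finset.dvd_prod_of_mem _ (Finset.mem_univ t))
    · exfalso
      push Not at hex
      obtain ⟨t, ht⟩ := Function.ne_iff.1 hne
      have hlt : e t < D := lt_of_le_of_ne (hex t) ht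
      have : ∑ t, (m t : ℤ) * e t < ∑ t, (m t : ℤ) * D := by
        refine Finset.sum_lt_sum (fun i _ => ?_) ⟨t, Finset.mem_univ _, ?_⟩
        · exact mul_le_mul_of_nonneg_left (hex i) (by positivity)
        · exact mul_lt_mul_of_pos_left hlt (by exact_mod_cast hm t)
      rw [← Finset.sum_mul] at this
      exact absurd hs (ne_of_lt this)
  have hout : (fun _ : T => D) ∉ E → ∏ _t : T, F D = 0 := by
    intro hn
    by_contra hc
    apply hn
    have h2 : ∀ t : T, ∃ y : Y, δ y = D := by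
      intro t
      have h3 := (Finset.prod_ne_zero_iff.1 hc) t (Finset.mem_univ t)
      obtain ⟨y, hy, -⟩ := Finset.exists_ne_zero_of_sum_ne_zero h3
      exact ⟨y, (Finset.mem_filter.1 hy).2⟩
    choose y hy using h2
    refine Finset.mem_image.2 ⟨y, ?_, funext hy⟩
    rw [hA, Finset.mem_filter]
    refine ⟨Finset.mem_univ _, ?_⟩
    rw [Finset.sum_mul]
    exact Finset.sum_congr rfl fun t _ => by rw [hy]
  have hpow : F D ^ Fintype.card T = ∏ _t : T, F D := by
    rw [Finset.prod_const, Finset.card_univ]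
  have hgoal : n ∣ (∑ e ∈ E, ∏ t, F (e t)) - F D ^ Fintype.card T := by
    by_cases hin : (fun _ : T => D) ∈ E
    · rw [← Finset.add_sum_erase E _ hin, hpow, add_sub_cancel_left]
      refine Finset.dvd_sum fun e he => ?_
      rw [Finset.mem_erase] at he
      exact hrest e he.2 he.1
    · rw [hpow, hout hin, sub_zero]
      refine Finset.dvd_sum fun e he => ?_
      exact hrest e he (fun h => hin (h ▸ he))
  exact hgoal

/-- The general statement: `π : T → I` has the orbits of `V` as fibres, and stabilisers of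
some points of all orbits map onto `A`. -/
theorem KTR_gen (hFX : FX_stmt) {A L T : Type} [Group A] [Group L]
    [MulAction L T] [Fintype T] (S : SSet A) (c : Cocycle L T A) (V : Subgroup L) {I : Type}
    [Fintype I] (π : T → I) (horb : ∀ t t', π t = π t' ↔ ∃ v ∈ V, v • t = t')
    (hfix : ∀ i, ∃ t, π t = i ∧ ∀ a, ∃ v ∈ V, v • t = t ∧ c.κ v t = a) (D n : ℤ)
    (hD : ∀ d > D, n ∣ S.fix d ⊤) :
    n ∣ (pathS S c).fix ((Fintype.card T : ℤ) * D) V - (S.fix D ⊤) ^ Fintype.card I := by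
  classical
  have hZ := S.fin
  have hsurj : Function.Surjective π := fun i => by
    obtain ⟨t, ht, _⟩ := hfix i
    exact ⟨t, ht⟩
  set m : I → ℕ := fun i => (Finset.univ.filter fun t => π t = i).card with hm
  have hm0 : ∀ i, 0 < m i := fun i => by
    obtain ⟨t, ht⟩ := hsurj i
    exact Finset.card_pos.2 ⟨t, Finset.mem_filter.2 ⟨Finset.mem_univ _, ht⟩⟩
  have hsum : ∀ f : I → ℤ, ∑ t, f (π t) = ∑ i, (m i : ℤ) * f i := by
    intro f
    rw [← Finset.sum_fiberwise Finset.univ π fun t => f (π t)]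
    refine Finset.sum_congr rfl fun i _ => ?_
    rw [Finset.sum_congr rfl (g := fun _ => f i)
      (fun t ht => by rw [(Finset.mem_filter.1 ht).2])]
    rw [Finset.sum_const, nsmul_eq_mul]
  have hcard : (∑ i, (m i : ℤ)) = Fintype.card T := by
    have h := hsum fun _ => 1
    simp only [mul_one, Finset.sum_const, Finset.card_univ, nsmul_eq_mul] at h
    exact h.symm
  have hTP' := KTR_TP {z : S.Z // ∀ a, S.act a z = z} I (fun y => (-1 : ℤ) ^ S.len y.1)
    (fun y => S.dfc y.1) m D n hm0 (fun d hd => by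
      have h := hD d hd
      rw [Pool.Agent.helper34.DC.TR_fix] at h
      exact h)
  rw [← Pool.Agent.helper34.DC.TR_fix] at hTP'
  refine hTP'.trans (dvd_of_eq ?_)
  refine congrArg (fun w : ℤ => w - (S.fix D ⊤) ^ Fintype.card I) ?_
  rw [hFX]
  refine finsum_eq_of_bijective (fun y => ⟨fun t => (y.1 (π t)).1, ?_, ?_⟩) ⟨?_, ?_⟩ ?_
  · intro l hl t
    have h1 : π (l • t) = π t := ((horb t (l • t)).2 ⟨l, hl, rfl⟩).symm
    show (y.1 (π (l • t))).1 = S.act (c.κ l t) (y.1 (π t)).1
    rw [h1, (y.1 (π t)).2]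
  · rw [hsum fun i => S.dfc (y.1 i).1, y.2, hcard]
  · intro y y' hyy
    have h1 := congrArg (fun u => u.1) hyy
    refine Subtype.ext (funext fun i => Subtype.ext ?_)
    obtain ⟨t, rfl⟩ := hsurj i
    exact congrFun h1 t
  · rintro ⟨z, hz1, hz2⟩
    choose b hb1 hb2 using hfix
    have hzb : ∀ i a, S.act a (z (b i)) = z (b i) := by
      intro i a
      obtain ⟨v, hv, hvb, hva⟩ := hb2 i a
      have h := hz1 v hv (b i)
      rw [hvb, hva] at h
      exact h.symm
    have hzt : ∀ t, z t = z (b (π t)) := by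
      intro t
      obtain ⟨v, hv, hvt⟩ := (horb (b (π t)) t).1 (hb1 (π t))
      have h := hz1 v hv (b (π t))
      rw [hvt, hzb] at h
      exact h
    refine ⟨⟨fun i => ⟨z (b i), hzb i⟩, ?_⟩, ?_⟩
    · rw [hcard, ← hz2, ← hsum fun i => S.dfc (z (b i))]
      exact Finset.sum_congr rfl fun t _ => by rw [← hzt]
    · refine Subtype.ext (funext fun t => ?_)
      exact (hzt t).symm
  · intro y
    rw [← finprod_eq_prod_of_fintype]
    symm
    refine finprod_eq_of_bijective (fun O : MulAction.orbitRel.Quotient V T => π O.out) ⟨?_, ?_⟩ ?_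
    · intro O O' h
      obtain ⟨v, hv, hvt⟩ := (horb _ _).1 h
      have h1 : (Quotient.mk (MulAction.orbitRel V T) O'.out) =
          Quotient.mk (MulAction.orbitRel V T) O.out :=
        Quotient.sound ⟨⟨v, hv⟩, hvt⟩
      rw [Quotient.out_eq, Quotient.out_eq] at h1
      exact h1.symm
    · intro i
      obtain ⟨t, rfl⟩ := hsurj i
      refine ⟨Quotient.mk (MulAction.orbitRel V T) t, ?_⟩
      have h1 : (MulAction.orbitRel V T).r (Quotient.mk (MulAction.orbitRel V T) t).out t :=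
        Quotient.exact (Quotient.out_eq _)
      obtain ⟨v, hv⟩ := h1
      exact ((horb _ _).2 ⟨v.1, v.2, hv⟩).symm
    · intro O
      rfl

theorem KTR (hFX : FX_stmt) : KTR_stmt := by
  intro A L Q _ _ _ _ _ S c q₀ r D n h1 hD
  have h := KTR_gen hFX S (cocR c r) ⊤ (fun x : QR Q r => (x.2 : Fin r)) (by
    intro t t'
    constructor
    · intro htt
      obtain ⟨l, hl⟩ := MulAction.exists_smul_eq L t.1 t'.1
      exact ⟨l, Subgroup.mem_top l, Prod.ext hl htt⟩
    · rintro ⟨v, _, rfl⟩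
      rfl) (by
    intro i
    refine ⟨(q₀, i), rfl, fun a => ?_⟩
    obtain ⟨l, hl1, hl2⟩ := h1 a
    exact ⟨l, Subgroup.mem_top l, Prod.ext hl1 rfl, hl2⟩) D n hD
  rw [Fintype.card_fin] at h
  have h2 : Fintype.card (QR Q r) = Fintype.card Q * r := by
    have h3 : Fintype.card (QR Q r) = Fintype.card (Q × Fin r) := rfl
    rw [h3, Fintype.card_prod, Fintype.card_fin]
  have h4 : (Fintype.card (QR Q r) : ℤ) * D = (Fintype.card Q : ℤ) * r * D := by
    rw [h2, Nat.cast_mul]
  rw [← h4]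
  exact h

end Pool.Agent.KZ
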