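import Pool.Agent.helper12.KZ.Spec

/-! Row kz:KFN (MP_baa4d7_al): the criterion -/

set_option autoImplicit false

namespace Pool.Agent.KZ

open Pool.Agent.helper58.DC Pool.Agent.DI Pool.Agent.TY

/-- the largest degree at which `l` does not divide -/
theorem KFN_top (f : ℤ → ℤ) (hf : {d : ℤ | f d ≠ 0}.Finite) (l : ℤ) (d : ℤ) (hd : ¬ l ∣ f d) :
    ∃ D : ℤ, ¬ l ∣ f D ∧ ∀ d' > D, l ∣ f d' := by
  classical
  have hfin : {d : ℤ | ¬ l ∣ f d}.Finite := by
    refine hf.subset fun x hx h0 => hx ?_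
    rw [h0]
    exact dvd_zero _
  obtain ⟨D, hD⟩ := hfin.toFinset.exists_max_image id ⟨d, hfin.mem_toFinset.2 hd⟩
  refine ⟨D, hfin.mem_toFinset.1 hD.1, fun d' hd' => ?_⟩
  by_contra hcon
  have := hD.2 d' (hfin.mem_toFinset.2 hcon)
  simp only [id] at this
  omega

/-- data with quotient `A`, block defect `δ` and a largest degree at which `l` does not divide -/
def KFN_D (p : ℕ) (M : Ideal (integralClosure ℤ ℂ)) (A : Type) [Group A] (l δ : ℕ) : Prop :=
  ∃ (G E : Type) (_ : Group G) (_ : Group E) (_ : Finite G) (_ : Finite E)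
    (X : Extension G E A) (χ : G → ℂ) (D : ℤ), IsOp p (⊤ : Subgroup G) ⊥ ∧ χ ∈ Irr G ∧
    Stable X M χ ∧ BlockDefect p M χ δ ∧ ¬ (l : ℤ) ∣ altSum X p M χ D ⊤ ∧
    ∀ d > D, (l : ℤ) ∣ altSum X p M χ d ⊤

theorem KFN (hFG : FG_stmt) (hKIN : KIN_stmt) (hKNA : KNA_stmt) (hKPW : KPW_stmt) (hBE : BE_stmt)
    (hST : ST_stmt) (hFN : FN_stmt) (hD5 : D5_stmt) (hD6 : D6_stmt) : KFN_stmt := by
  classical
  intro p N m₀ hp hN M hM hpM
  have hfp : Fact p.Prime := ⟨hp⟩
  constructor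
  · intro h c hc D₀ hD₀
    obtain ⟨k, hk, hb⟩ := (hFG p N m₀ hp hN M hM hpM).1 h c hc D₀ hD₀
    exact ⟨k, hk, Or.inl hb⟩
  · intro h
    by_contra hDade
    have h1 : ¬ ∀ c : ℝ, 0 < c → ∀ D₀ : ℕ, 1 ≤ D₀ → ∃ k : ℕ, 1 ≤ k ∧
        Bound p N (max m₀ 5) M c (k * D₀) :=
      fun hcon => hDade ((hFG p N (max m₀ 5) hp hN M hM hpM).2 hcon)
    push Not at h1
    obtain ⟨c, hc, D₁, hD₁, hno⟩ := h1
    have h2 := hno 1 le_rfl
    rw [one_mul] at h2
    unfold Bound at h2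
    push Not at h2
    obtain ⟨m, hm, G, E, _, _, _, _, X, hop, χ, hχ, hst, hBD, d, -, hbig⟩ := h2
    have hm5 : 5 ≤ m := (le_max_right _ _).trans hm
    have hm0 : m₀ ≤ m := (le_max_left _ _).trans hm
    obtain ⟨v, hv⟩ : ∃ v : ℤ, v = altSum X p M χ d ⊤ := ⟨_, rfl⟩
    rw [← hv] at hbig
    have hvpos : (0 : ℝ) < v := lt_of_lt_of_le (Real.exp_pos _) hbig
    have hv0 : v ≠ 0 := by
      intro h0
      rw [h0] at hvpos
      simp at hvpos
    have hpd : PosDefect p M χ := ((hBE G p hp M χ hχ).2 _ hBD).1 (by omega)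
    have hd1 : 1 ≤ d := by
      by_contra hcon
      apply hv0
      rw [hv]
      exact hD6 G E _ X p M hM hpM χ hχ hpd d (by omega) ⊤
    -- the data for all primes
    have hall : ∀ l : ℕ, l.Prime → ∃ δ : ℕ, 1 ≤ δ ∧ KFN_D p M (alternatingGroup (Fin m)) l δ := by
      intro l hl
      have hfl : Fact l.Prime := ⟨hl⟩
      have hnot : ¬ HypE p M (alternatingGroup (Fin m)) l := by
        intro hcon
        have h3 := hKIN p l M hM hpM (alternatingGroup (Fin m)) (hKNA m l hm5 hl) hcon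
        have h4 := h3 G E X hop χ hχ d hd1
        rw [← hv] at h4
        exact hv0 (zero_dvd_iff.1 h4)
      unfold HypE at hnot
      push Not at hnot
      obtain ⟨G', E', _, _, _, _, X', hop', χ', hχ', d', hd', hnd⟩ := hnot
      have hne : altSum X' p M χ' d' ⊤ ≠ 0 := by
        intro h0
        rw [h0] at hnd
        exact hnd (dvd_zero _)
      have hst' : Stable X' M χ' := hST G' E' _ X' p M χ' hχ' d' hne
      have hpd' : PosDefect p M χ' := by
        by_contra hcon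
        exact hne (hD5 G' E' _ X' p M hM hpM χ' hχ' hcon d' hd' ⊤)
      obtain ⟨⟨δ, hδ⟩, hpos⟩ := hBE G' p hp M χ' hχ'
      have hδ0 : 0 < δ := (hpos δ hδ).2 hpd'
      obtain ⟨D', hD', hD''⟩ := KFN_top (fun d => altSum X' p M χ' d ⊤) (hFN G' E' _ X' p M χ' ⊤) l d' hnd
      exact ⟨δ, hδ0, G', E', inferInstance, inferInstance, inferInstance, inferInstance, X', χ', D',
        hop', hχ', hst', hδ, hD', hD''⟩
    choose f hf1 hf2 using hall
    obtain ⟨g, hg⟩ : ∃ g : ℕ → ℕ, g = fun l => if hl : l.Prime then f l hl else 1 := ⟨_, rfl⟩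
    have hg1 : ∀ l, 1 ≤ g l := by
      intro l
      rw [hg]
      by_cases hl : l.Prime
      · simp only [dif_pos hl]
        exact hf1 l hl
      · simp only [dif_neg hl]
        exact le_rfl
    obtain ⟨W0, hW0⟩ : ∃ W0 : ℕ, W0 = D₁ * ∏ l ∈ v.natAbs.primeFactors, g l := ⟨_, rfl⟩
    have hW1 : 1 ≤ W0 := by
      rw [hW0]
      exact Nat.mul_pos hD₁ (Finset.prod_pos fun l _ => hg1 l)
    have hdat : ∀ l : ℕ, l.Prime → ∃ δ : ℕ, 1 ≤ δ ∧ δ ∣ W0 ∧ KFN_D p M (alternatingGroup (Fin m)) l δ := by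
      intro l hl
      by_cases hlv : l ∣ v.natAbs
      · refine ⟨g l, hg1 l, ?_, ?_⟩
        · rw [hW0]
          refine Dvd.dvd.mul_left (Finset.dvd_prod_of_mem g ?_) D₁
          rw [Nat.mem_primeFactors]
          exact ⟨hl, hlv, Int.natAbs_ne_zero.2 hv0⟩
        · have : g l = f l hl := by
            rw [hg]
            simp only [dif_pos hl]
          rw [this]
          exact hf2 l hl
      · have hlv' : ¬ (l : ℤ) ∣ altSum X p M χ d ⊤ := by
          rw [← hv]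
          intro hcon
          exact hlv (Int.natCast_dvd.1 hcon)
        obtain ⟨D', hD', hD''⟩ := KFN_top (fun d => altSum X p M χ d ⊤) (hFN G E _ X p M χ ⊤) l d hlv'
        refine ⟨D₁, hD₁, ?_, G, E, inferInstance, inferInstance, inferInstance, inferInstance, X, χ, D',
          hop, hχ, hst, hBD, hD', hD''⟩
        rw [hW0]
        exact Dvd.intro _ rfl
    obtain ⟨q, hq, hpw⟩ := hKPW p M (alternatingGroup (Fin m))
    have hD₀ : 1 ≤ D₁ * (N * q * W0) := by
      have : 0 < D₁ * (N * q * W0) := by positivity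
      exact this
    obtain ⟨k, hk, hor⟩ := h c hc (D₁ * (N * q * W0)) hD₀
    rcases hor with hb | ⟨n, hn, hcd⟩
    · apply hno (k * (N * q * W0)) (by
        have : 0 < k * (N * q * W0) := by positivity
        exact this)
      have e : k * (N * q * W0) * D₁ = k * (D₁ * (N * q * W0)) := by ring
      rw [e]
      intro m' hm' 
      exact hb m' ((le_max_left _ _).trans hm')
    · have hn2 : n.natAbs ≠ 1 := by omega
      obtain ⟨l, hl, hln⟩ := Nat.exists_prime_and_dvd hn2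
      have hln' : (l : ℤ) ∣ n := Int.natCast_dvd.2 hln
      obtain ⟨δ, hδ1, ⟨w, hw⟩, G', E', _, _, _, _, X', χ', D', hop', hχ', hst', hδ, hD', hD''⟩ := hdat l hl
      obtain ⟨G₂, E₂, _, _, _, _, X₂, χ₂, hop₂, hχ₂, hst₂, hBD₂, hcong⟩ :=
        hpw G' E' X' hop' χ' hχ' hst' δ hδ (k * D₁ * N * w)
      have e : q * (k * D₁ * N * w) * δ = k * (D₁ * (N * q * W0)) := by
        rw [hw]
        ring
      rw [e] at hBD₂
      have h5 := hcd m hm0 G₂ E₂ X₂ hop₂ χ₂ hχ₂ hst₂ hBD₂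
        ((q : ℤ) * ((k * D₁ * N * w : ℕ) : ℤ) * D') ⟨(q : ℤ) * (k * D₁ * w) * D', by push_cast; ring⟩
      have h6 := hcong D' l hD''
      have h7 : (l : ℤ) ∣ altSum X' p M χ' D' ⊤ ^ (k * D₁ * N * w) := by
        have h8 := dvd_sub (hln'.trans h5) h6
        rwa [sub_sub_cancel] at h8
      exact hD' ((Nat.prime_iff_prime_int.1 hl).dvd_of_dvd_pow h7)

end Pool.Agent.KZ
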